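import Pool.Agent.H19.Bdry2

set_option autoImplicit false

namespace Pool.Agent.Results.MP_0c6837_al.NotFree

open MeasureTheory Filter Topology Set Pool.Agent.H19.Bdry

/-- Every orbit is dense. -/
def Minimal {G X : Type} [Group G] [TopologicalSpace X] (ρ : G →* (X ≃ₜ X)) : Prop :=
  ∀ x, Dense (range fun g => ρ g x)

/-- The weak-* closure of the orbit of every Borel probability measure contains a Dirac mass. -/
def StronglyProximal {G X : Type} [Group G] [TopologicalSpace X] [MeasurableSpace X]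
    [BorelSpace X] (ρ : G →* (X ≃ₜ X)) : Prop :=
  ∀ μ : ProbabilityMeasure X, ∃ x, diracProba x ∈
    closure (range fun g => μ.map (ρ g).continuous.measurable.aemeasurable)

/-- The points with trivial stabilizer are dense. -/
def TopFree {G X : Type} [Group G] [TopologicalSpace X] (ρ : G →* (X ≃ₜ X)) : Prop :=
  Dense {x | ∀ g, ρ g x = x → g = 1}

theorem result (n : ℕ) (hn : 4 ≤ n) : ∃ (Y : Type) (_ : TopologicalSpace Y) (_ : CompactSpace Y)
    (_ : T2Space Y) (_ : Nonempty Y) (_ : MeasurableSpace Y) (_ : BorelSpace Y)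
    (ρ : FreeGroup (Fin n) →* (Y ≃ₜ Y)),
    Function.Injective ρ ∧ Minimal ρ ∧ StronglyProximal ρ ∧ ¬ TopFree ρ := by
  obtain ⟨m, rfl⟩ : ∃ m, n = m + 3 + 1 := ⟨n - 4, by omega⟩
  let e : Fin 3 → Fin (m + 3) := Fin.castLE (by omega)
  let r : Fin (m + 3) → Fin 3 := fun a => if h : a.1 < 3 then ⟨a.1, h⟩ else 0
  have hr : ∀ i, r (e i) = i := fun i => by simp [r, e]
  obtain ⟨Φ, h1, h2, U, hU, hne, h3⟩ := main e r hr
  let E := FreeGroup.freeGroupCongr (finSuccEquiv (m + 3))
  borelize (X (Fin (m + 3)))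
  have key : ∀ (μ : Measure (X (Fin (m + 3)))) [IsFiniteMeasure μ] {p : X (Fin (m + 3))}
      {V : Set (X (Fin (m + 3)))}, V ∈ 𝓝 p → ∀ {ε : ENNReal}, 0 < ε →
      ∃ g, μ {z | Φ (E g) z ∉ V} < ε := by
    intro μ _ p V hV ε hε
    obtain ⟨γ, hγ⟩ := Γ_contract e r hr μ hV hε
    obtain ⟨g, hg⟩ := h2 γ
    exact ⟨E.symm g, by rwa [E.apply_symm_apply, hg]⟩
  obtain ⟨p, hp⟩ := hne
  refine ⟨X (Fin (m + 3)), inferInstance, inferInstance, inferInstance, ⟨p⟩, borel _,
    inferInstance, Φ.comp E.toMonoidHom, h1.comp E.injective, fun x => ?_, fun μ => ⟨p, ?_⟩,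
    fun h => ?_⟩
  · refine dense_iff_inter_open.2 fun V hV ⟨q, hq⟩ => ?_
    obtain ⟨g, hg⟩ := key (Measure.dirac x) (hV.mem_nhds hq) zero_lt_one
    refine ⟨_, ?_, g, rfl⟩
    by_contra h
    rw [Measure.dirac_apply_of_mem (show x ∈ {z | Φ (E g) z ∉ V} from h)] at hg
    exact lt_irrefl _ hg
  · obtain ⟨V, hV⟩ := (𝓝 p).exists_antitone_basis
    choose g hg using fun k : ℕ => key (μ : Measure _) (hV.mem k)
      (ε := (k : ENNReal)⁻¹) (ENNReal.inv_pos.2 (ENNReal.natCast_ne_top k))
    refine mem_closure_of_tendsto (f := fun k => μ.map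
      (Φ (E (g k))).continuous.measurable.aemeasurable) (b := atTop)
      (tendsto_of_forall_isOpen_le_liminf' fun G hG => ?_) (Eventually.of_forall fun k => ⟨g k, rfl⟩)
    by_cases hpG : p ∈ G
    · have t1 : Tendsto (fun k : ℕ => 1 - (k : ENNReal)⁻¹) atTop (𝓝 1) := by
        simpa using ENNReal.Tendsto.sub tendsto_const_nhds ENNReal.tendsto_inv_nat_nhds_zero
          (Or.inl ENNReal.one_ne_top)
      refine (prob_le_one.trans t1.liminf_eq.ge).trans (liminf_le_liminf ?_)
      filter_upwards [hV.eventually_subset (hG.mem_nhds hpG)] with k hk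
      rw [ProbabilityMeasure.toMeasure_map,
        Measure.map_apply (Φ (E (g k))).continuous.measurable hG.measurableSet, tsub_le_iff_right]
      have m1 := (measure_union_le (μ := (μ : Measure (X (Fin (m + 3)))))
        (Φ (E (g k)) ⁻¹' G) _).trans (add_le_add le_rfl (hg k).le)
      refine (measure_univ (μ := (μ : Measure (X (Fin (m + 3)))))).ge.trans
        (le_trans (measure_mono ?_) m1)
      intro z _
      by_cases hz : Φ (E (g k)) z ∈ V k
      · exact Or.inl (hk hz)
      · exact Or.inr hz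
    · have : (diracProba p : Measure _) G = 0 := by
        simp [diracProba, Measure.dirac_apply' _ hG.measurableSet, hpG]
      rw [this]; exact zero_le
  · obtain ⟨z, hz, hz'⟩ := dense_iff_inter_open.1 h U hU ⟨p, hp⟩
    have := hz' (E.symm (FreeGroup.of none)) (by simpa using h3 z hz)
    simpa using congrArg E this

end Pool.Agent.Results.MP_0c6837_al.NotFree
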